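import Mathlib

set_option autoImplicit false

/-!
# Geodesic and peripheral cycles of a finite graph: definitions
-/

namespace Pool.Agent.Helper58.GeoCycle

open SimpleGraph

/-- A finite graph is 3-connected if it has more than 3 vertices and deleting any set of at most
2 vertices leaves it connected. -/
def ThreeConnected {V : Type} [Fintype V] (G : SimpleGraph V) : Prop :=
  3 < Fintype.card V ∧ ∀ S : Finset V, S.card ≤ 2 → (G.induce {v : V | v ∉ S}).Connected

/-- The sum of the values of `f` over the edges of a walk; for a length assignment this is the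
length of the walk. -/
def wt {V : Type} {G : SimpleGraph V} {M : Type} [AddCommMonoid M] (f : Sym2 V → M) {x y : V}
    (p : G.Walk x y) : M :=
  (p.edges.map f).sum

/-- `q` is an `x`-`y` arc of `C`: a path from `x` to `y` all of whose edges are edges of `C`. -/
def IsArc {V : Type} {G : SimpleGraph V} {v : V} (C : G.Walk v v) {x y : V}
    (q : G.Walk x y) : Prop :=
  q.IsPath ∧ ∀ e ∈ q.edges, e ∈ C.edges

/-- `C` is an `ℓ`-geodesic cycle: for all vertices `x, y` on `C`, no `x`-`y` path in `G` is
strictly shorter than all `x`-`y` arcs of `C`. -/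
def IsGeodesicCycle {V : Type} {G : SimpleGraph V} (ℓ : Sym2 V → ℝ) {v : V}
    (C : G.Walk v v) : Prop :=
  C.IsCycle ∧ ∀ x ∈ C.support, ∀ y ∈ C.support, ∀ p : G.Walk x y, p.IsPath →
    ¬ (∀ q : G.Walk x y, IsArc C q → wt ℓ p < wt ℓ q)

/-- `C` is a peripheral cycle: it has no chord and the graph obtained by deleting its vertices
is connected (the graph without vertices counts as connected here, so that being not
peripheral is as strong as possible). -/
def IsPeripheralCycle {V : Type} {G : SimpleGraph V} {v : V} (C : G.Walk v v) : Prop :=
  C.IsCycle ∧ (∀ x ∈ C.support, ∀ y ∈ C.support, G.Adj x y → s(x, y) ∈ C.edges) ∧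
    (G.induce {x : V | x ∉ C.support}).Preconnected


end Pool.Agent.Helper58.GeoCycle
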