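import Mathlib
import Pool.Agent.Helper58.GeoCycle.Defs

set_option autoImplicit false

/-!
# A 3-connected graph in which, for every length assignment, some geodesic cycle is not peripheral

The graph is the tetrahedron `K_4` with one extra vertex stacked into each of its four faces
(8 vertices, 18 edges): `K_4` on `k_0, …, k_3` together with `p_0, …, p_3`, where `p_i` is adjacent
to exactly the three vertices `k_j`, `j ≠ i`.
-/

namespace Pool.Agent.Helper58.GeoCycle

open SimpleGraph

/-! ## Weights of walks -/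

section general

variable {V : Type} {G : SimpleGraph V} {M : Type} [AddCommMonoid M]

@[simp] lemma wt_nil (f : Sym2 V → M) {x : V} : wt f (Walk.nil : G.Walk x x) = 0 := by
  simp [wt]

@[simp] lemma wt_cons (f : Sym2 V → M) {x y z : V} (h : G.Adj x y) (p : G.Walk y z) :
    wt f (Walk.cons h p) = f s(x, y) + wt f p := by
  simp [wt]

@[simp] lemma wt_append (f : Sym2 V → M) {x y z : V} (p : G.Walk x y) (q : G.Walk y z) :
    wt f (p.append q) = wt f p + wt f q := by
  simp [wt, Walk.edges_append]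

@[simp] lemma wt_reverse (f : Sym2 V → M) {x y : V} (p : G.Walk x y) :
    wt f p.reverse = wt f p := by
  simp [wt, Walk.edges_reverse, List.sum_reverse]

lemma wt_rotate [DecidableEq V] (f : Sym2 V → M) {v u : V} (C : G.Walk v v)
    (hu : u ∈ C.support) : wt f (C.rotate u hu) = wt f C := by
  unfold wt
  exact ((C.rotate_edges u hu).perm.map f).sum_eq

lemma wt_nonneg {ℓ : Sym2 V → ℝ} (hℓ : ∀ e ∈ G.edgeSet, 0 < ℓ e) {x y : V} (p : G.Walk x y) :
    0 ≤ wt ℓ p := by
  unfold wt
  apply List.sum_nonneg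
  intro a ha
  rw [List.mem_map] at ha
  obtain ⟨e, he, rfl⟩ := ha
  exact (hℓ e (p.edges_subset_edgeSet he)).le

lemma wt_bypass_le [DecidableEq V] {ℓ : Sym2 V → ℝ} (hℓ : ∀ e ∈ G.edgeSet, 0 < ℓ e) {x y : V}
    (p : G.Walk x y) : wt ℓ p.bypass ≤ wt ℓ p := by
  unfold wt
  apply List.Sublist.sum_le_sum
  · exact (p.edges_bypass_sublist_edges).map ℓ
  · intro a ha
    rw [List.mem_map] at ha
    obtain ⟨e, he, rfl⟩ := ha
    exact (hℓ e (p.edges_subset_edgeSet he)).le

end general


/-! ## The weighted distance -/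

section dist

variable {V : Type} {G : SimpleGraph V}

/-- The weighted distance: infimum of the lengths of all walks. -/
noncomputable def dst (G : SimpleGraph V) (ℓ : Sym2 V → ℝ) (x y : V) : ℝ :=
  ⨅ p : G.Walk x y, wt ℓ p

variable {ℓ : Sym2 V → ℝ}

lemma dst_le (hℓ : ∀ e ∈ G.edgeSet, 0 < ℓ e) {x y : V} (p : G.Walk x y) :
    dst G ℓ x y ≤ wt ℓ p := by
  apply ciInf_le
  exact ⟨0, by rintro _ ⟨q, rfl⟩; exact wt_nonneg hℓ q⟩

lemma exists_path_dst [Fintype V] (hℓ : ∀ e ∈ G.edgeSet, 0 < ℓ e) (hG : G.Connected) (x y : V) :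
    ∃ p : G.Walk x y, p.IsPath ∧ wt ℓ p = dst G ℓ x y := by
  classical
  obtain ⟨w⟩ := hG.preconnected x y
  have : Nonempty (G.Path x y) := ⟨w.toPath⟩
  obtain ⟨p, hp⟩ := Finite.exists_min (fun p : G.Path x y => wt ℓ (p : G.Walk x y))
  refine ⟨p, p.2, le_antisymm ?_ (dst_le hℓ _)⟩
  have : Nonempty (G.Walk x y) := ⟨w⟩
  apply le_ciInf
  intro q
  exact (hp q.toPath).trans (wt_bypass_le hℓ q)

lemma dst_nonneg (hℓ : ∀ e ∈ G.edgeSet, 0 < ℓ e) (hG : G.Connected) (x y : V) :
    0 ≤ dst G ℓ x y := by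
  obtain ⟨w⟩ := hG.preconnected x y
  have : Nonempty (G.Walk x y) := ⟨w⟩
  apply le_ciInf
  intro q
  exact wt_nonneg hℓ q

lemma dst_self (hℓ : ∀ e ∈ G.edgeSet, 0 < ℓ e) (hG : G.Connected) (x : V) :
    dst G ℓ x x = 0 :=
  le_antisymm (by simpa using dst_le hℓ (Walk.nil : G.Walk x x)) (dst_nonneg hℓ hG x x)

lemma dst_comm [Fintype V] (hℓ : ∀ e ∈ G.edgeSet, 0 < ℓ e) (hG : G.Connected) (x y : V) :
    dst G ℓ x y = dst G ℓ y x := by
  apply le_antisymm
  · obtain ⟨p, -, hp⟩ := exists_path_dst hℓ hG y x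
    rw [← hp, ← wt_reverse]
    exact dst_le hℓ _
  · obtain ⟨p, -, hp⟩ := exists_path_dst hℓ hG x y
    rw [← hp, ← wt_reverse]
    exact dst_le hℓ _

lemma dst_triangle [Fintype V] (hℓ : ∀ e ∈ G.edgeSet, 0 < ℓ e) (hG : G.Connected) (x y z : V) :
    dst G ℓ x z ≤ dst G ℓ x y + dst G ℓ y z := by
  obtain ⟨p, -, hp⟩ := exists_path_dst hℓ hG x y
  obtain ⟨q, -, hq⟩ := exists_path_dst hℓ hG y z
  rw [← hp, ← hq, ← wt_append]
  exact dst_le hℓ _

lemma dst_adj_le (hℓ : ∀ e ∈ G.edgeSet, 0 < ℓ e) {x y : V} (h : G.Adj x y) :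
    dst G ℓ x y ≤ ℓ s(x, y) := by
  simpa using dst_le hℓ (Walk.cons h Walk.nil)

/-- The first step of a shortest path. -/
lemma exists_first_step [Fintype V] (hℓ : ∀ e ∈ G.edgeSet, 0 < ℓ e) (hG : G.Connected) {x y : V}
    (hxy : x ≠ y) : ∃ z, G.Adj x z ∧ dst G ℓ x y = ℓ s(x, z) + dst G ℓ z y := by
  obtain ⟨p, -, hp⟩ := exists_path_dst hℓ hG x y
  cases p with
  | nil => exact absurd rfl hxy
  | @cons _ z _ h q =>
    refine ⟨z, h, le_antisymm ?_ ?_⟩
    · refine (dst_triangle hℓ hG x z y).trans ?_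
      have := dst_adj_le hℓ h
      linarith
    · rw [← hp, wt_cons]
      have := dst_le hℓ q
      linarith

end dist

/-! ## Geodesic cycles detect every parity functional (Georgakopoulos and Spruessel) -/

section cycles

variable {V : Type} {G : SimpleGraph V} {ℓ : Sym2 V → ℝ}

lemma exists_cycle_of_walk [DecidableEq V] (hℓ : ∀ e ∈ G.edgeSet, 0 < ℓ e) (φ : Sym2 V → ZMod 2)
    {u v : V} (q : G.Walk u v) :
    wt φ q = wt φ q.bypass ∨
      ∃ (x : V) (C : G.Walk x x), C.IsCycle ∧ wt φ C ≠ 0 ∧ wt ℓ C ≤ wt ℓ q := by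
  induction q with
  | nil => left; simp [Walk.bypass]
  | @cons u w v h r ih =>
    have hpos : 0 < ℓ s(u, w) := hℓ _ h
    rcases ih with ih | ⟨x, C, hC, hφ, hle⟩
    · by_cases hs : u ∈ r.bypass.support
      · have hspec : wt φ (r.bypass.takeUntil u hs) + wt φ (r.bypass.dropUntil u hs)
            = wt φ r.bypass := by
          rw [← wt_append, Walk.take_spec]
        have hspecℓ : wt ℓ (r.bypass.takeUntil u hs) + wt ℓ (r.bypass.dropUntil u hs)
            = wt ℓ r.bypass := by
          rw [← wt_append, Walk.take_spec]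
        by_cases hφ : φ s(u, w) + wt φ (r.bypass.takeUntil u hs) = 0
        · left
          have : (Walk.cons h r).bypass = r.bypass.dropUntil u hs := by
            simp only [Walk.bypass]
            rw [dif_pos hs]
          rw [this, wt_cons, ih, ← hspec, ← add_assoc, hφ, zero_add]
        · right
          refine ⟨u, Walk.cons h (r.bypass.takeUntil u hs), ?_, by simpa using hφ, ?_⟩
          · rw [Walk.cons_isCycle_iff]
            have hpath : (r.bypass.takeUntil u hs).IsPath := r.bypass_isPath.takeUntil hs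
            refine ⟨hpath, ?_⟩
            intro hmem
            apply hφ
            rw [Sym2.eq_swap] at hmem
            have := hpath.eq_adj_toWalk_of_mem_edges hmem
            rw [this]
            simp only [SimpleGraph.Adj.toWalk, wt_cons, wt_nil, add_zero]
            rw [Sym2.eq_swap]
            exact CharTwo.add_self_eq_zero _
          · rw [wt_cons, wt_cons]
            have h1 := wt_bypass_le hℓ r
            have h2 := wt_nonneg hℓ (r.bypass.dropUntil u hs)
            linarith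
      · left
        have : (Walk.cons h r).bypass = Walk.cons h r.bypass := by
          simp only [Walk.bypass]
          rw [dif_neg hs]
        rw [this, wt_cons, wt_cons, ih]
    · right
      refine ⟨x, C, hC, hφ, ?_⟩
      rw [wt_cons]
      linarith

lemma exists_cycle_of_closed [DecidableEq V] (hℓ : ∀ e ∈ G.edgeSet, 0 < ℓ e) (φ : Sym2 V → ZMod 2)
    {u : V} (q : G.Walk u u) (hq : wt φ q ≠ 0) :
    ∃ (x : V) (C : G.Walk x x), C.IsCycle ∧ wt φ C ≠ 0 ∧ wt ℓ C ≤ wt ℓ q := by
  rcases exists_cycle_of_walk hℓ φ q with h | h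
  · exfalso
    apply hq
    rw [h, (Walk.isPath_iff_eq_nil.mp q.bypass_isPath), wt_nil]
  · exact h

lemma finite_cycles [Fintype V] (G : SimpleGraph V) :
    Finite {c : Σ x : V, G.Walk x x // c.2.IsCycle} := by
  classical
  have hfin : {l : List V | l.length ≤ Fintype.card V + 1}.Finite := List.finite_length_le V _
  have : Finite {l : List V | l.length ≤ Fintype.card V + 1} := hfin
  refine Finite.of_injective (β := {l : List V | l.length ≤ Fintype.card V + 1})
    (fun c => ⟨c.1.2.support, ?_⟩) ?_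
  · have h := c.2
    rw [Walk.isCycle_def] at h
    have h1 := h.2.2.length_le_card
    simp only [List.length_tail] at h1
    simp only [Set.mem_ofPred_eq]
    omega
  · rintro ⟨⟨x, C⟩, hC⟩ ⟨⟨y, D⟩, hD⟩ h
    simp only [Subtype.mk.injEq] at h
    have hxy : x = y := by
      have h1 : C.support.head (by simp) = D.support.head (by simp) := by
        simp only [h]
      simpa using h1
    subst hxy
    have := Walk.ext_support h
    subst this
    rfl

/-- For every functional `φ` on the edges with values in `ZMod 2` that is nonzero on some closed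
walk there is an `ℓ`-geodesic cycle on which `φ` is nonzero. -/
lemma exists_geodesic [Fintype V] (hℓ : ∀ e ∈ G.edgeSet, 0 < ℓ e) (φ : Sym2 V → ZMod 2)
    {u : V} (q : G.Walk u u) (hq : wt φ q ≠ 0) :
    ∃ (x : V) (C : G.Walk x x), IsGeodesicCycle ℓ C ∧ wt φ C ≠ 0 := by
  classical
  have := finite_cycles G
  let T := {c : {c : Σ x : V, G.Walk x x // c.2.IsCycle} // wt φ c.1.2 ≠ 0}
  have : Finite T := Subtype.finite
  obtain ⟨x₀, C₀, hC₀, hφ₀, -⟩ := exists_cycle_of_closed hℓ φ q hq
  have : Nonempty T := ⟨⟨⟨⟨x₀, C₀⟩, hC₀⟩, hφ₀⟩⟩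
  obtain ⟨⟨⟨⟨v, C⟩, hC⟩, hφ⟩, hmin⟩ := Finite.exists_min (fun c : T => wt ℓ c.1.1.2)
  have hmin' : ∀ (x : V) (D : G.Walk x x), D.IsCycle → wt φ D ≠ 0 → wt ℓ C ≤ wt ℓ D :=
    fun x D hD hφD => hmin ⟨⟨⟨x, D⟩, hD⟩, hφD⟩
  simp only at hφ
  refine ⟨v, C, ⟨hC, ?_⟩, hφ⟩
  intro x hx y hy p _ hcon
  by_cases hxy : x = y
  · subst hxy
    have h1 := hcon Walk.nil ⟨Walk.IsPath.nil, by simp⟩
    have h2 := wt_nonneg hℓ p
    simp at h1
    linarith
  · have hC' : (C.rotate x hx).IsCycle := (Walk.isCycle_rotate hx).mpr hC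
    have hy' : y ∈ (C.rotate x hx).support := (Walk.mem_support_rotate_iff C x hx).mpr hy
    have hsub : ∀ e ∈ (C.rotate x hx).edges, e ∈ C.edges := fun e he =>
      (C.rotate_edges x hx).mem_iff.mp he
    have hspec := (C.rotate x hx).take_spec hy'
    have hp1 : ((C.rotate x hx).takeUntil y hy').IsPath := hC'.isPath_takeUntil hy'
    have hp2 : ((C.rotate x hx).dropUntil y hy').IsPath := by
      rw [← hspec] at hC'
      refine hC'.isPath_of_append_right ?_
      intro hnil
      exact hxy hnil.eq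
    have h1 := hcon _ ⟨hp1, fun e he =>
      hsub e ((C.rotate x hx).edges_takeUntil_subset_edges hy' he)⟩
    have h2 := hcon _ ⟨hp2.reverse, fun e he =>
      hsub e ((C.rotate x hx).edges_dropUntil_subset_edges hy' (by simpa using he))⟩
    rw [wt_reverse] at h2
    have hℓC : wt ℓ ((C.rotate x hx).takeUntil y hy') + wt ℓ ((C.rotate x hx).dropUntil y hy')
        = wt ℓ C := by
      rw [← wt_append, hspec, wt_rotate]
    have hφC : wt φ ((C.rotate x hx).takeUntil y hy') + wt φ ((C.rotate x hx).dropUntil y hy')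
        = wt φ C := by
      rw [← wt_append, hspec, wt_rotate]
    by_cases hW : wt φ (((C.rotate x hx).takeUntil y hy').append p.reverse) = 0
    · have hW2 : wt φ (p.append ((C.rotate x hx).dropUntil y hy')) ≠ 0 := by
        intro h0
        apply hφ
        rw [wt_append, wt_reverse] at hW
        rw [wt_append] at h0
        rw [← hφC]
        have h3 : wt φ ((C.rotate x hx).takeUntil y hy') = wt φ p := by
          rw [add_eq_zero_iff_eq_neg] at hW
          rw [hW, ZMod.neg_eq_self_mod_two]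
        rw [h3, h0]
      obtain ⟨z, D, hD, hφD, hle⟩ := exists_cycle_of_closed hℓ φ _ hW2
      have := hmin' z D hD hφD
      rw [wt_append] at hle
      linarith
    · obtain ⟨z, D, hD, hφD, hle⟩ := exists_cycle_of_closed hℓ φ _ hW
      have := hmin' z D hD hφD
      rw [wt_append, wt_reverse] at hle
      linarith

/-- A cycle that is not geodesic has two distinct vertices whose distance is smaller than the
lengths of all arcs between them. -/
lemma exists_shortcut (hℓ : ∀ e ∈ G.edgeSet, 0 < ℓ e) {v : V} {C : G.Walk v v}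
    (hC : C.IsCycle) (h : ¬ IsGeodesicCycle ℓ C) :
    ∃ x ∈ C.support, ∃ y ∈ C.support, x ≠ y ∧
      ∀ q : G.Walk x y, IsArc C q → dst G ℓ x y < wt ℓ q := by
  unfold IsGeodesicCycle at h
  push Not at h
  obtain ⟨x, hx, y, hy, p, hp, hq⟩ := h hC
  refine ⟨x, hx, y, hy, ?_, fun q hq' => (dst_le hℓ p).trans_lt (hq q hq')⟩
  rintro rfl
  have h1 := hq Walk.nil ⟨Walk.IsPath.nil, by simp⟩
  have h2 := wt_nonneg hℓ p
  simp at h1
  linarith

end cycles


/-! ## The real-number core of the argument -/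

/-- The facts about the weighted distances that the argument uses. `D i j`, `S i j`, `T i j` are the
distances `d(k_i,k_j)`, `d(p_i,k_j)`, `d(p_i,p_j)`; `L i j`, `M i j` are the lengths of the edges
`k_i k_j` and `p_i k_j`. -/
structure Data (D S T L M : Fin 4 → Fin 4 → ℝ) : Prop where
  Dsymm : ∀ i j, D i j = D j i
  Lsymm : ∀ i j, L i j = L j i
  Dnn : ∀ i j, 0 ≤ D i j
  Snn : ∀ i j, 0 ≤ S i j
  DL : ∀ i j, i ≠ j → D i j ≤ L i j
  SM : ∀ i j, i ≠ j → S i j ≤ M i j
  tri1 : ∀ i j m, D i j ≤ D i m + D m j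
  tri2 : ∀ i j m, D i j ≤ S m i + S m j
  tri3 : ∀ i j m, S i j ≤ S i m + D m j
  firstT : ∀ i j, i ≠ j → ∃ m, m ≠ i ∧ T i j = M i m + S j m
  firstS : ∀ i, ∃ m, m ≠ i ∧ S i i = M i m + D m i
  N3 : ∀ i j m, i ≠ j → j ≠ m → i ≠ m → D i j < L i j ∨ D j m < L j m ∨ D i m < L i m
  N4 : ∀ i j k l, i ≠ j → i ≠ k → i ≠ l → j ≠ k → j ≠ l → k ≠ l →
    S l i < M l i ∨ S l j < M l j ∨ S k i < M k i ∨ S k j < M k j ∨
    (D i j < M l i + M l j ∧ D i j < M k i + M k j) ∨
    (T l k < M l i + M k i ∧ T l k < M l j + M k j)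
  N4' : ∀ i j k, i ≠ j → i ≠ k → j ≠ k →
    S k i < M k i ∨ S k j < M k j ∨ D i k < L i k ∨ D j k < L j k ∨
    (D i j < M k i + M k j ∧ D i j < L i k + L j k) ∨
    (S k k < M k i + L i k ∧ S k k < M k j + L j k)

/-- The facial triangle `p_i k_j k_m` is geodesic. -/
def GeoT (D S L M : Fin 4 → Fin 4 → ℝ) (i j m : Fin 4) : Prop :=
  (M i j ≤ S i j ∨ M i m + L j m ≤ S i j) ∧ (M i m ≤ S i m ∨ M i j + L j m ≤ S i m) ∧
    (L j m ≤ D j m ∨ M i j + M i m ≤ D j m)

section core

variable {D S T L M : Fin 4 → Fin 4 → ℝ}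

/-- If `T l k` is smaller than both detours via `i` and `j`, the shortest path from `p_l` to `p_k`
runs through `k_k` and `k_l`. -/
lemma through (h : Data D S T L M) {i j k l : Fin 4} (hij : i ≠ j) (hik : i ≠ k) (hil : i ≠ l)
    (hjk : j ≠ k) (hjl : j ≠ l) (hkl : k ≠ l) (hcov : ∀ x, x = i ∨ x = j ∨ x = k ∨ x = l)
    (hi : T l k < M l i + M k i) (hj : T l k < M l j + M k j)
    (eki : M k i = S k i) (ekj : M k j = S k j) (eli : M l i = S l i) (elj : M l j = S l j) :
    S l k + D k l + S k l < S l i + S k i ∧ S l k + D k l + S k l < S l j + S k j := by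
  obtain ⟨m, hm, hT⟩ := h.firstT l k hkl.symm
  rcases hcov m with rfl | rfl | rfl | rfl
  · linarith
  · linarith
  · obtain ⟨n, hn, hS⟩ := h.firstS m
    have h1 := h.SM l m hkl.symm
    rcases hcov n with rfl | rfl | rfl | rfl
    · have h2 := h.tri3 l n m
      have h3 := h.Dsymm m n
      linarith [h.tri3 l n m]
    · have h3 := h.Dsymm m n
      linarith [h.tri3 l n m]
    · exact absurd rfl hn
    · have h2 := h.SM m n hkl
      have h3 := h.Dsymm m n
      constructor <;> linarith
  · exact absurd rfl hm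

/-- Claim A: consequences of an edge `k_i k_j` of the tetrahedron that is longer than the distance
of its ends when both facial triangles at it are geodesic. -/
lemma claimA (h : Data D S T L M) {i j k l : Fin 4} (hij : i ≠ j) (hik : i ≠ k) (hil : i ≠ l)
    (hjk : j ≠ k) (hjl : j ≠ l) (hkl : k ≠ l) (hcov : ∀ x, x = i ∨ x = j ∨ x = k ∨ x = l)
    (hlong : D i j < L i j) (h1 : GeoT D S L M l i j) (h2 : GeoT D S L M k i j) :
    (M l i = S l i ∧ M l j = S l j ∧ M k i = S k i ∧ M k j = S k j) ∧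
    (D i j = S l i + S l j ∧ D i j = S k i + S k j) ∧
    (S l k + D k l + S k l < S l i + S k i ∧ S l k + D k l + S k l < S l j + S k j) := by
  have a1 : M l i + M l j ≤ D i j := by
    rcases h1.2.2 with h | h
    · linarith
    · exact h
  have a2 : M k i + M k j ≤ D i j := by
    rcases h2.2.2 with h | h
    · linarith
    · exact h
  have b1 := h.SM l i hil.symm
  have b2 := h.SM l j hjl.symm
  have b3 := h.SM k i hik.symm
  have b4 := h.SM k j hjk.symm
  have c1 := h.tri2 i j l
  have c2 := h.tri2 i j k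
  have e1 : M l i = S l i := by linarith
  have e2 : M l j = S l j := by linarith
  have e3 : M k i = S k i := by linarith
  have e4 : M k j = S k j := by linarith
  refine ⟨⟨e1, e2, e3, e4⟩, ⟨by linarith, by linarith⟩, ?_⟩
  rcases h.N4 i j k l hij hik hil hjk hjl hkl with h' | h' | h' | h' | h' | h'
  · linarith
  · linarith
  · linarith
  · linarith
  · linarith [h'.1]
  · exact through h hij hik hil hjk hjl hkl hcov h'.1 h'.2 e3 e4 e1 e2

/-- Opposite edges of the tetrahedron are not both long. -/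
lemma opposite (h : Data D S T L M) {i j k l : Fin 4} (hij : i ≠ j) (hik : i ≠ k) (hil : i ≠ l)
    (hjk : j ≠ k) (hjl : j ≠ l) (hkl : k ≠ l) (hcov : ∀ x, x = i ∨ x = j ∨ x = k ∨ x = l)
    (h1 : D i j < L i j) (h2 : D k l < L k l) (g1 : GeoT D S L M l i j) (g2 : GeoT D S L M k i j)
    (g3 : GeoT D S L M j k l) (g4 : GeoT D S L M i k l) : False := by
  have A := claimA h hij hik hil hjk hjl hkl hcov h1 g1 g2
  have B := claimA h hkl hik.symm hjk.symm hil.symm hjl.symm hij
    (fun x => by rcases hcov x with h | h | h | h <;> simp [h]) h2 g3 g4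
  have n1 := h.Snn l k
  have n2 := h.Snn k l
  have n3 := h.Snn j i
  have n4 := h.Snn i j
  linarith [A.1.1, A.2.1.1, A.2.1.2, A.2.2.1, A.2.2.2, B.2.1.1, B.2.1.2, B.2.2.1, B.2.2.2]

/-- The three edges of a face of the tetrahedron are not all long. -/
lemma equator (h : Data D S T L M) {a c e b : Fin 4} (hac : a ≠ c) (hae : a ≠ e) (hab : a ≠ b)
    (hce : c ≠ e) (hcb : c ≠ b) (heb : e ≠ b) (hcov : ∀ x, x = a ∨ x = c ∨ x = e ∨ x = b)
    (h1 : D a c < L a c) (h2 : D a e < L a e) (h3 : D c e < L c e)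
    (g1 : GeoT D S L M b a c) (g2 : GeoT D S L M e a c)
    (g3 : GeoT D S L M b a e) (g4 : GeoT D S L M c a e)
    (g5 : GeoT D S L M b c e) (g6 : GeoT D S L M a c e) : False := by
  have A := claimA h hac hae hab hce hcb heb hcov h1 g1 g2
  have B := claimA h hae hac hab hce.symm heb hcb
    (fun x => by rcases hcov x with h | h | h | h <;> simp [h]) h2 g3 g4
  have C := claimA h hce hac.symm hcb hae.symm heb hab
    (fun x => by rcases hcov x with h | h | h | h <;> simp [h]) h3 g5 g6
  have n1 := h.Snn e b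
  have n2 := h.Snn c b
  have n3 := h.Snn a b
  have t1 := h.tri1 a c b
  have t2 := h.tri1 a e b
  have t3 := h.tri1 c e b
  have s1 := h.Dsymm a b
  have s2 := h.Dsymm c b
  have s3 := h.Dsymm e b
  have s4 := h.Dsymm b c
  linarith [A.2.1.1, A.2.1.2, A.2.2.1, A.2.2.2, B.2.1.1, B.2.1.2, B.2.2.1, B.2.2.2, C.2.1.1,
    C.2.1.2, C.2.2.1, C.2.2.2]

/-- The case in which `k_a k_b`, `k_a k_c` are long and `k_b k_c` is not. -/
lemma case2c (h : Data D S T L M) {a b c e : Fin 4} (hab : a ≠ b) (hac : a ≠ c) (hae : a ≠ e)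
    (hbc : b ≠ c) (hbe : b ≠ e) (hce : c ≠ e) (hcov : ∀ x, x = a ∨ x = b ∨ x = c ∨ x = e)
    (G : ∀ i j m, i ≠ j → i ≠ m → j ≠ m → ¬ (i = e ∧ j ≠ c ∧ m ≠ c) → GeoT D S L M i j m)
    (lab : D a b < L a b) (lac : D a c < L a c) (nbc : ¬ D b c < L b c) : False := by
  have nbe : ¬ D b e < L b e := by
    intro hh
    exact opposite h hac hab hae hbc.symm hce hbe
      (fun x => by rcases hcov x with h | h | h | h <;> simp [h]) lac hh
      (G _ _ _ hae.symm hce.symm hac (by tauto)) (G _ _ _ hab.symm hbc hac (by tauto))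
      (G _ _ _ hbc.symm hce hbe (by tauto)) (G _ _ _ hab hae hbe (by tauto))
  have lce : D c e < L c e := by
    rcases h.N3 b c e hbc hce hbe with h' | h' | h'
    · exact absurd h' nbc
    · exact h'
    · exact absurd h' nbe
  have A := claimA h hac hab hae hbc.symm hce hbe
      (fun x => by rcases hcov x with h | h | h | h <;> simp [h]) lac
      (G _ _ _ hae.symm hce.symm hac (by tauto)) (G _ _ _ hab.symm hbc hac (by tauto))
  have B := claimA h hce hac.symm hbc.symm hae.symm hbe.symm hab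
      (fun x => by rcases hcov x with h | h | h | h <;> simp [h]) lce
      (G _ _ _ hbc hbe hce (by tauto)) (G _ _ _ hac hae hce (by tauto))
  have F1 : M c a = S c a ∧ M c b = S c b ∧ D a b = S c a + S c b := by
    have g := G c a b hac.symm hbc.symm hab (by tauto)
    have a1 : M c a + M c b ≤ D a b := by
      rcases g.2.2 with h | h
      · linarith
      · exact h
    have b1 := h.SM c a hac.symm
    have b2 := h.SM c b hbc.symm
    have c1 := h.tri2 a b c
    refine ⟨by linarith, by linarith, by linarith⟩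
  have hDbc : D b c = L b c := le_antisymm (h.DL b c hbc) (not_lt.mp nbc)
  have g := G e b c hbe.symm hce.symm hbc (by tauto)
  rcases g.1 with h1 | h1
  · have eb : M e b = S e b := le_antisymm h1 (h.SM e b hbe.symm)
    rcases h.N4 a b c e hab hac hae hbc hbe hce with h' | h' | h' | h' | h' | h'
    · linarith [A.1.1]
    · linarith
    · linarith [F1.1]
    · linarith [F1.2.1]
    · linarith [h'.2, F1.1, F1.2.1, F1.2.2]
    · have Q := through h hab hac hae hbc hbe hce hcov h'.1 h'.2 F1.1 F1.2.1 A.1.1 eb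
      have s1 := h.Dsymm b e
      have s2 := h.Dsymm c e
      have t1 := h.tri3 c b e
      have n1 := h.Snn b e
      linarith [A.2.1.1, A.2.1.2, A.2.2.1, A.2.2.2, B.2.1.1, B.2.1.2, B.2.2.1, B.2.2.2, Q.1, Q.2,
        h.Snn c e, h.Snn e c, h.Dnn b e, h.Snn b c]
  · have s1 := h.Dsymm b c
    have s2 := h.Dsymm b e
    have t1 := h.tri1 c e b
    have m1 := h.SM e c hce.symm
    linarith [A.2.1.1, A.2.1.2, A.2.2.1, A.2.2.2, B.2.1.1, B.2.1.2, B.2.2.1, B.2.2.2, h.Snn b e,
      h.Snn c e, h.Snn e c, h.Dnn b e]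

/-- The real-number core of the argument. -/
lemma core (h : Data D S T L M) {a b c e : Fin 4} (hab : a ≠ b) (hac : a ≠ c) (hae : a ≠ e)
    (hbc : b ≠ c) (hbe : b ≠ e) (hce : c ≠ e) (hcov : ∀ x, x = a ∨ x = b ∨ x = c ∨ x = e)
    (G : ∀ i j m, i ≠ j → i ≠ m → j ≠ m → ¬ (i = e ∧ j ≠ c ∧ m ≠ c) → GeoT D S L M i j m) :
    False := by
  have hcov' : ∀ x, x = b ∨ x = a ∨ x = c ∨ x = e := fun x => by
    rcases hcov x with h | h | h | h <;> simp [h]
  by_cases lab : D a b < L a b
  · have F1 : M c a = S c a ∧ M c b = S c b ∧ D a b = S c a + S c b := by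
      have g := G c a b hac.symm hbc.symm hab (by tauto)
      have a1 : M c a + M c b ≤ D a b := by
        rcases g.2.2 with h | h
        · linarith
        · exact h
      have b1 := h.SM c a hac.symm
      have b2 := h.SM c b hbc.symm
      have c1 := h.tri2 a b c
      refine ⟨by linarith, by linarith, by linarith⟩
    by_cases lac : D a c < L a c
    · by_cases lbc : D b c < L b c
      · -- case 2b
        have A := claimA h hac hab hae hbc.symm hce hbe
          (fun x => by rcases hcov x with h | h | h | h <;> simp [h]) lac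
          (G _ _ _ hae.symm hce.symm hac (by tauto)) (G _ _ _ hab.symm hbc hac (by tauto))
        have B := claimA h hbc hab.symm hbe hac.symm hce hae
          (fun x => by rcases hcov x with h | h | h | h <;> simp [h]) lbc
          (G _ _ _ hbe.symm hce.symm hbc (by tauto)) (G _ _ _ hab hac hbc (by tauto))
        rcases h.N4 a b c e hab hac hae hbc hbe hce with h' | h' | h' | h' | h' | h'
        · linarith [A.1.1]
        · linarith [B.1.1]
        · linarith [F1.1]
        · linarith [F1.2.1]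
        · linarith [h'.2, F1.1, F1.2.1, F1.2.2]
        · have Q := through h hab hac hae hbc hbe hce hcov h'.1 h'.2 F1.1 F1.2.1 A.1.1 B.1.1
          have s1 := h.Dsymm b e
          have s2 := h.Dsymm c e
          have s3 := h.Dsymm a e
          have t1 := h.tri1 a c e
          have t2 := h.tri1 b c e
          have t3 := h.tri1 a b e
          linarith [A.2.1.1, A.2.1.2, A.2.2.1, A.2.2.2, B.2.1.1, B.2.1.2, B.2.2.1, B.2.2.2,
            Q.1, Q.2, h.Snn c e, h.Snn e c, h.Snn b e, h.Snn a e]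
      · exact case2c h hab hac hae hbc hbe hce hcov G lab lac lbc
    · by_cases lbc : D b c < L b c
      · refine case2c h hab.symm hbc hbe hac hae hce hcov' G ?_ lbc lac
        rw [h.Dsymm b a, h.Lsymm b a]
        exact lab
      · -- case 2a
        have eac : D a c = L a c := le_antisymm (h.DL a c hac) (not_lt.mp lac)
        have ebc : D b c = L b c := le_antisymm (h.DL b c hbc) (not_lt.mp lbc)
        have Q : S c e + D e c < S c a + D a c ∧ S c e + D e c < S c b + D b c := by
          rcases h.N4' a b c hab hac hbc with h' | h' | h' | h' | h' | h'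
          · linarith [F1.1]
          · linarith [F1.2.1]
          · linarith
          · linarith
          · linarith [h'.1, F1.1, F1.2.1, F1.2.2]
          · obtain ⟨m, hm, hS⟩ := h.firstS c
            rcases hcov m with rfl | rfl | rfl | rfl
            · linarith [h'.1]
            · linarith [h'.2]
            · exact absurd rfl hm
            · have m1 := h.SM c m hce
              constructor <;> linarith [h'.1, h'.2, F1.1, F1.2.1]
        by_cases lce : D c e < L c e
        · have B := claimA h hce hac.symm hbc.symm hae.symm hbe.symm hab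
            (fun x => by rcases hcov x with h | h | h | h <;> simp [h]) lce
            (G _ _ _ hbc hbe hce (by tauto)) (G _ _ _ hac hae hce (by tauto))
          have s2 := h.Dsymm c e
          have t1 := h.tri2 a c b
          have t2 := h.tri2 b c a
          linarith [B.2.1.1, B.2.1.2, B.2.2.1, B.2.2.2, Q.1, Q.2, F1.2.2, h.Snn c e]
        · have lae : D a e < L a e := by
            rcases h.N3 a c e hac hce hae with h' | h' | h'
            · exact absurd h' lac
            · exact absurd h' lce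
            · exact h'
          have lbe : D b e < L b e := by
            rcases h.N3 b c e hbc hce hbe with h' | h' | h'
            · exact absurd h' lbc
            · exact absurd h' lce
            · exact h'
          have A := claimA h hae hab hac hbe.symm hce.symm hbc
            (fun x => by rcases hcov x with h | h | h | h <;> simp [h]) lae
            (G _ _ _ hac.symm hce hae (by tauto)) (G _ _ _ hab.symm hbe hae (by tauto))
          have B := claimA h hbe hab.symm hbc hae.symm hce.symm hac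
            (fun x => by rcases hcov x with h | h | h | h <;> simp [h]) lbe
            (G _ _ _ hbc.symm hce hbe (by tauto)) (G _ _ _ hab hae hbe (by tauto))
          have s2 := h.Dsymm c e
          have s3 := h.Dsymm b c
          have s4 := h.Dsymm a c
          have t1 := h.tri1 a e c
          have t2 := h.tri1 b e c
          linarith [A.2.1.1, A.2.1.2, A.2.2.1, A.2.2.2, B.2.1.1, B.2.1.2, B.2.2.1, B.2.2.2,
            Q.1, Q.2, F1.2.2, h.Snn c e, h.Snn b c, h.Snn a c]
  · -- `k_a k_b` is not long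
    have opp1 : D a c < L a c → D b e < L b e → False := fun h1 h2 =>
      opposite h hac hab hae hbc.symm hce hbe
        (fun x => by rcases hcov x with h | h | h | h <;> simp [h]) h1 h2
        (G _ _ _ hae.symm hce.symm hac (by tauto)) (G _ _ _ hab.symm hbc hac (by tauto))
        (G _ _ _ hbc.symm hce hbe (by tauto)) (G _ _ _ hab hae hbe (by tauto))
    have opp2 : D b c < L b c → D a e < L a e → False := fun h1 h2 =>
      opposite h hbc hab.symm hbe hac.symm hce hae
        (fun x => by rcases hcov x with h | h | h | h <;> simp [h]) h1 h2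
        (G _ _ _ hbe.symm hce.symm hbc (by tauto)) (G _ _ _ hab hac hbc (by tauto))
        (G _ _ _ hac.symm hce hae (by tauto)) (G _ _ _ hab.symm hbe hae (by tauto))
    rcases h.N3 a b c hab hbc hac with h1 | h1 | h1
    · exact lab h1
    · -- `k_b k_c` is long
      rcases h.N3 a b e hab hbe hae with h2 | h2 | h2
      · exact lab h2
      · have lce : D c e < L c e := by
          rcases h.N3 a c e hac hce hae with h' | h' | h'
          · exact absurd h2 (fun hh => opp1 h' hh)
          · exact h'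
          · exact absurd h' (fun hh => opp2 h1 hh)
        exact equator h hbc hbe hab.symm hce hac.symm hae.symm
          (fun x => by rcases hcov x with h | h | h | h <;> simp [h]) h1 h2 lce
          (G _ _ _ hab hac hbc (by tauto)) (G _ _ _ hbe.symm hce.symm hbc (by tauto))
          (G _ _ _ hab hae hbe (by tauto)) (G _ _ _ hbc.symm hce hbe (by tauto))
          (G _ _ _ hac hae hce (by tauto)) (G _ _ _ hbc hbe hce (by tauto))
      · exact opp2 h1 h2
    · -- `k_a k_c` is long
      rcases h.N3 a b e hab hbe hae with h2 | h2 | h2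
      · exact lab h2
      · exact opp1 h1 h2
      · have lce : D c e < L c e := by
          rcases h.N3 b c e hbc hce hbe with h' | h' | h'
          · exact absurd h2 (fun hh => opp2 h' hh)
          · exact h'
          · exact absurd h' (fun hh => opp1 h1 hh)
        exact equator h hac hae hab hce hbc.symm hbe.symm
          (fun x => by rcases hcov x with h | h | h | h <;> simp [h]) h1 h2 lce
          (G _ _ _ hab.symm hbc hac (by tauto)) (G _ _ _ hae.symm hce.symm hac (by tauto))
          (G _ _ _ hab.symm hbe hae (by tauto)) (G _ _ _ hac.symm hce hae (by tauto))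
          (G _ _ _ hbc hbe hce (by tauto)) (G _ _ _ hac hae hce (by tauto))

end core


/-! ## The graph -/

/-- The vertex set: `k_i = (i, false)` are the vertices of the tetrahedron and `p_i = (i, true)`
is the vertex stacked into the face opposite to `k_i`. -/
abbrev W : Type := Fin 4 × Bool

/-- The tetrahedron with a vertex stacked into each face: `(i, s)` and `(j, t)` are adjacent iff
`i ≠ j` and not both are stacked vertices. -/
def K : SimpleGraph W where
  Adj x y := x.1 ≠ y.1 ∧ (x.2 = false ∨ y.2 = false)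
  symm := ⟨fun _ _ h => ⟨h.1.symm, h.2.symm⟩⟩
  loopless := ⟨fun _ h => h.1 rfl⟩

instance : DecidableRel K.Adj := fun x y =>
  inferInstanceAs (Decidable (x.1 ≠ y.1 ∧ (x.2 = false ∨ y.2 = false)))

/-- Tetrahedron vertices. -/
abbrev k (i : Fin 4) : W := (i, false)

/-- Stacked vertices. -/
abbrev p (i : Fin 4) : W := (i, true)

lemma adj_kk {i j : Fin 4} (h : i ≠ j) : K.Adj (k i) (k j) := ⟨h, Or.inl rfl⟩

lemma adj_pk {i j : Fin 4} (h : i ≠ j) : K.Adj (p i) (k j) := ⟨h, Or.inr rfl⟩

lemma adj_kp {i j : Fin 4} (h : i ≠ j) : K.Adj (k i) (p j) := ⟨h, Or.inl rfl⟩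

lemma exists_third (i j : Fin 4) : ∃ m : Fin 4, m ≠ i ∧ m ≠ j := by
  revert i j; decide

lemma K_connected : K.Connected := by
  have : Nonempty W := ⟨k 0⟩
  have hk : ∀ i, K.Reachable (k 0) (k i) := by
    intro i
    by_cases h : (0 : Fin 4) = i
    · subst h; exact Reachable.refl _
    · exact (adj_kk h).reachable
  refine ⟨?_⟩
  have h0 : ∀ x : W, K.Reachable (k 0) x := by
    rintro ⟨i, b⟩
    cases b with
    | false => exact hk i
    | true =>
      obtain ⟨m, hm, -⟩ := exists_third i i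
      exact (hk m).trans (adj_kp hm).reachable
  intro x y
  exact (h0 x).symm.trans (h0 y)

lemma K_three : ThreeConnected K := by
  refine ⟨by simp [W], ?_⟩
  intro S hS
  -- a surviving tetrahedron vertex avoiding two prescribed indices is found by counting
  have key : ∀ i : Fin 4, ∃ j, j ≠ i ∧ k j ∉ S := by
    intro i
    by_contra hcon
    push Not at hcon
    have hsub : (Finset.univ.filter (fun j : Fin 4 => j ≠ i)).image k ⊆ S := by
      intro x hx
      simp only [Finset.mem_image, Finset.mem_filter, Finset.mem_univ, true_and] at hx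
      obtain ⟨j, hj, rfl⟩ := hx
      exact hcon j hj
    have hcard := Finset.card_le_card hsub
    rw [Finset.card_image_of_injective _ (fun a b h => by simpa using h)] at hcard
    have h3 : ∀ i : Fin 4, (Finset.univ.filter (fun j : Fin 4 => j ≠ i)).card = 3 := by decide
    have := h3 i
    omega
  obtain ⟨r, -, hr⟩ := key 0
  have hkk : ∀ (i j : Fin 4) (hi : k i ∉ S) (hj : k j ∉ S),
      (K.induce {v : W | v ∉ S}).Reachable ⟨k i, hi⟩ ⟨k j, hj⟩ := by
    intro i j hi hj
    by_cases h : i = j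
    · subst h; exact Reachable.refl _
    · apply Adj.reachable
      exact adj_kk h
  have hall : ∀ (x : W) (hx : x ∉ S),
      (K.induce {v : W | v ∉ S}).Reachable ⟨k r, hr⟩ ⟨x, hx⟩ := by
    rintro ⟨i, b⟩ hx
    cases b with
    | false => exact hkk r i hr hx
    | true =>
      obtain ⟨j, hj, hjS⟩ := key i
      refine (hkk r j hr hjS).trans ?_
      apply Adj.reachable
      exact adj_kp hj
  have : Nonempty {v : W | v ∉ S} := ⟨⟨k r, hr⟩⟩
  refine ⟨?_⟩
  rintro ⟨x, hx⟩ ⟨y, hy⟩
  exact (hall x hx).symm.trans (hall y hy)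

/-! ## Short cycles -/

section short

variable {V : Type} {G : SimpleGraph V} {ℓ : Sym2 V → ℝ}

lemma isCycle_three {x y z : V} (hxy : G.Adj x y) (hyz : G.Adj y z) (hzx : G.Adj z x) :
    (Walk.cons hxy (Walk.cons hyz (Walk.cons hzx Walk.nil))).IsCycle := by
  have h1 := hxy.ne
  have h2 := hyz.ne
  have h3 := hzx.ne
  rw [Walk.cons_isCycle_iff]
  refine ⟨?_, ?_⟩
  · simp [Walk.cons_isPath_iff, h1.symm, h2, h3]
  · simp [h1, h1.symm, h2, h3, h3.symm]

lemma isCycle_four {x y z w : V} (hxy : G.Adj x y) (hyz : G.Adj y z) (hzw : G.Adj z w)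
    (hwx : G.Adj w x) (hxz : x ≠ z) (hyw : y ≠ w) :
    (Walk.cons hxy (Walk.cons hyz (Walk.cons hzw (Walk.cons hwx Walk.nil)))).IsCycle := by
  have h1 := hxy.ne
  have h2 := hyz.ne
  have h3 := hzw.ne
  have h4 := hwx.ne
  rw [Walk.cons_isCycle_iff]
  refine ⟨?_, ?_⟩
  · simp [Walk.cons_isPath_iff, h1.symm, h2, h3, h4, hyw, hxz.symm]
  · simp [h1, h1.symm, h2, h3, h4, h4.symm, hxz, hyw]

lemma arc_one {v : V} {C : G.Walk v v} {x y : V} (h : G.Adj x y) (he : s(x, y) ∈ C.edges) :
    IsArc C (Walk.cons h Walk.nil) := by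
  refine ⟨?_, ?_⟩
  · simp [Walk.cons_isPath_iff, h.ne]
  · intro e he'
    simp at he'
    subst he'
    exact he

lemma arc_two {v : V} {C : G.Walk v v} {x y z : V} (h : G.Adj x y) (h' : G.Adj y z) (hxz : x ≠ z)
    (he : s(x, y) ∈ C.edges) (he' : s(y, z) ∈ C.edges) :
    IsArc C (Walk.cons h (Walk.cons h' Walk.nil)) := by
  refine ⟨?_, ?_⟩
  · simp [Walk.cons_isPath_iff, h.ne, h'.ne, hxz]
  · intro e hh
    simp at hh
    rcases hh with rfl | rfl
    · exact he
    · exact he'

lemma three_not_geodesic [Fintype V] (hℓ : ∀ e ∈ G.edgeSet, 0 < ℓ e) (hG : G.Connected)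
    {x y z : V} (hxy : G.Adj x y) (hyz : G.Adj y z) (hzx : G.Adj z x)
    (h : ¬ IsGeodesicCycle ℓ (Walk.cons hxy (Walk.cons hyz (Walk.cons hzx Walk.nil)))) :
    dst G ℓ x y < ℓ s(x, y) ∨ dst G ℓ y z < ℓ s(y, z) ∨ dst G ℓ x z < ℓ s(x, z) := by
  obtain ⟨u, hu, v, hv, huv, H⟩ := exists_shortcut hℓ (isCycle_three hxy hyz hzx) h
  simp only [Walk.support_cons, Walk.support_nil, List.mem_cons, List.not_mem_nil, or_false]
    at hu hv
  have e1 : dst G ℓ y x = dst G ℓ x y := dst_comm hℓ hG y x
  have e2 : dst G ℓ z y = dst G ℓ y z := dst_comm hℓ hG z y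
  have e3 : dst G ℓ z x = dst G ℓ x z := dst_comm hℓ hG z x
  have s1 : s(y, x) = s(x, y) := Sym2.eq_swap
  have s2 : s(z, y) = s(y, z) := Sym2.eq_swap
  have s3 : s(z, x) = s(x, z) := Sym2.eq_swap
  have main : ∀ (a b : V) (hab : G.Adj a b),
      s(a, b) ∈ (Walk.cons hxy (Walk.cons hyz (Walk.cons hzx Walk.nil))).edges → u = a → v = b →
      dst G ℓ a b < ℓ s(a, b) := by
    intro a b hab he hua hvb
    subst hua
    subst hvb
    simpa using H _ (arc_one hab he)
  rcases hu with hu | hu | hu | hu <;> rcases hv with hv | hv | hv | hv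
  all_goals first
    | (exfalso; exact huv (hu.trans hv.symm))
    | (left; exact main _ _ hxy (by simp) hu hv)
    | (left; rw [← e1, ← s1]; exact main _ _ hxy.symm (by simp) hu hv)
    | (right; left; exact main _ _ hyz (by simp) hu hv)
    | (right; left; rw [← e2, ← s2]; exact main _ _ hyz.symm (by simp) hu hv)
    | (right; right; exact main _ _ hzx.symm (by simp) hu hv)
    | (right; right; rw [← e3, ← s3]; exact main _ _ hzx (by simp) hu hv)

lemma four_not_geodesic [Fintype V] (hℓ : ∀ e ∈ G.edgeSet, 0 < ℓ e) (hG : G.Connected)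
    {x y z w : V} (hxy : G.Adj x y) (hyz : G.Adj y z) (hzw : G.Adj z w) (hwx : G.Adj w x)
    (hxz : x ≠ z) (hyw : y ≠ w)
    (h : ¬ IsGeodesicCycle ℓ
      (Walk.cons hxy (Walk.cons hyz (Walk.cons hzw (Walk.cons hwx Walk.nil))))) :
    dst G ℓ x y < ℓ s(x, y) ∨ dst G ℓ y z < ℓ s(y, z) ∨ dst G ℓ z w < ℓ s(z, w) ∨
    dst G ℓ w x < ℓ s(w, x) ∨
    (dst G ℓ x z < ℓ s(x, y) + ℓ s(y, z) ∧ dst G ℓ x z < ℓ s(w, x) + ℓ s(z, w)) ∨
    (dst G ℓ y w < ℓ s(x, y) + ℓ s(w, x) ∧ dst G ℓ y w < ℓ s(y, z) + ℓ s(z, w)) := by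
  obtain ⟨u, hu, v, hv, huv, H⟩ :=
    exists_shortcut hℓ (isCycle_four hxy hyz hzw hwx hxz hyw) h
  simp only [Walk.support_cons, Walk.support_nil, List.mem_cons, List.not_mem_nil, or_false]
    at hu hv
  have e1 : dst G ℓ y x = dst G ℓ x y := dst_comm hℓ hG y x
  have e2 : dst G ℓ z y = dst G ℓ y z := dst_comm hℓ hG z y
  have e3 : dst G ℓ w z = dst G ℓ z w := dst_comm hℓ hG w z
  have e4 : dst G ℓ x w = dst G ℓ w x := dst_comm hℓ hG x w
  have e5 : dst G ℓ z x = dst G ℓ x z := dst_comm hℓ hG z x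
  have e6 : dst G ℓ w y = dst G ℓ y w := dst_comm hℓ hG w y
  have s1 : s(y, x) = s(x, y) := Sym2.eq_swap
  have s2 : s(z, y) = s(y, z) := Sym2.eq_swap
  have s3 : s(w, z) = s(z, w) := Sym2.eq_swap
  have s4 : s(x, w) = s(w, x) := Sym2.eq_swap
  have main : ∀ (a b : V) (hab : G.Adj a b),
      s(a, b) ∈ (Walk.cons hxy (Walk.cons hyz (Walk.cons hzw (Walk.cons hwx Walk.nil)))).edges →
      u = a → v = b → dst G ℓ a b < ℓ s(a, b) := by
    intro a b hab he hua hvb
    subst hua
    subst hvb
    simpa using H _ (arc_one hab he)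
  have main2 : ∀ (a b c : V) (hab : G.Adj a b) (hbc : G.Adj b c), a ≠ c →
      s(a, b) ∈ (Walk.cons hxy (Walk.cons hyz (Walk.cons hzw (Walk.cons hwx Walk.nil)))).edges →
      s(b, c) ∈ (Walk.cons hxy (Walk.cons hyz (Walk.cons hzw (Walk.cons hwx Walk.nil)))).edges →
      u = a → v = c → dst G ℓ a c < ℓ s(a, b) + ℓ s(b, c) := by
    intro a b c hab hbc hac he1 he2 hua hvb
    subst hua
    subst hvb
    simpa using H _ (arc_two hab hbc hac he1 he2)
  rcases hu with hu | hu | hu | hu | hu <;> rcases hv with hv | hv | hv | hv | hv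
  all_goals first
    | (exfalso; exact huv (hu.trans hv.symm))
    | (left; exact main _ _ hxy (by simp) hu hv)
    | (left; rw [← e1, ← s1]; exact main _ _ hxy.symm (by simp) hu hv)
    | (right; left; exact main _ _ hyz (by simp) hu hv)
    | (right; left; rw [← e2, ← s2]; exact main _ _ hyz.symm (by simp) hu hv)
    | (right; right; left; exact main _ _ hzw (by simp) hu hv)
    | (right; right; left; rw [← e3, ← s3]; exact main _ _ hzw.symm (by simp) hu hv)
    | (right; right; right; left; exact main _ _ hwx (by simp) hu hv)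
    | (right; right; right; left; rw [← e4, ← s4]; exact main _ _ hwx.symm (by simp) hu hv)
    | (right; right; right; right; left
       have m1 := main2 _ _ _ hxy hyz hxz (by simp) (by simp) hu hv
       have m2 := main2 _ _ _ hwx.symm hzw.symm hxz (by simp) (by simp) hu hv
       rw [s4, s3] at m2
       exact ⟨m1, m2⟩)
    | (right; right; right; right; left
       have m1 := main2 _ _ _ hyz.symm hxy.symm hxz.symm (by simp) (by simp) hu hv
       have m2 := main2 _ _ _ hzw hwx hxz.symm (by simp) (by simp) hu hv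
       rw [s1, s2, e5] at m1
       rw [e5] at m2
       exact ⟨by linarith, by linarith⟩)
    | (right; right; right; right; right
       have m1 := main2 _ _ _ hxy.symm hwx.symm hyw (by simp) (by simp) hu hv
       have m2 := main2 _ _ _ hyz hzw hyw (by simp) (by simp) hu hv
       rw [s1, s4] at m1
       exact ⟨m1, m2⟩)
    | (right; right; right; right; right
       have m1 := main2 _ _ _ hwx hxy hyw.symm (by simp) (by simp) hu hv
       have m2 := main2 _ _ _ hzw.symm hyz.symm hyw.symm (by simp) (by simp) hu hv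
       rw [e6] at m1
       rw [s3, s2, e6] at m2
       exact ⟨by linarith, by linarith⟩)

end short

/-! ## Induced cycles with adjacent neighbours of the base point are triangles -/

section triangles

variable {V : Type} {G : SimpleGraph V} {ℓ : Sym2 V → ℝ}

lemma triangle_of_adj {v : V} {C : G.Walk v v} (hC : C.IsCycle)
    (hind : ∀ x ∈ C.support, ∀ y ∈ C.support, G.Adj x y → s(x, y) ∈ C.edges)
    (hadj : G.Adj C.snd C.penultimate) :
    ∃ (u w : V) (h1 : G.Adj v u) (h2 : G.Adj u w) (h3 : G.Adj w v),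
      C = Walk.cons h1 (Walk.cons h2 (Walk.cons h3 Walk.nil)) := by
  have h3 := hC.three_le_length
  have hmem := hind _ (C.getVert_mem_support 1) _ (C.getVert_mem_support (C.length - 1)) hadj
  cases C with
  | nil => simp at h3
  | @cons _ u _ h1 r =>
    rw [Walk.length_cons] at h3
    have hr : r.IsPath := ((Walk.cons_isCycle_iff r h1).mp hC).1
    have hrn : ¬ r.Nil := by
      intro hn
      have := Walk.length_eq_zero_iff.mpr hn
      omega
    have e1 : (Walk.cons h1 r).getVert 1 = u := by simp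
    have e2 : (Walk.cons h1 r).getVert ((Walk.cons h1 r).length - 1) = r.penultimate := by
      exact Walk.penultimate_cons_of_not_nil h1 r hrn
    rw [e1, e2, Walk.edges_cons, List.mem_cons] at hmem
    have hadj' : G.Adj r.penultimate v := r.adj_penultimate hrn
    rcases hmem with hmem | hmem
    · exfalso
      rw [Sym2.eq_iff] at hmem
      rcases hmem with ⟨h, -⟩ | ⟨-, h⟩
      · exact h1.ne h.symm
      · exact hadj'.ne h
    · have hw : r.penultimate = r.snd := hr.eq_snd_of_mem_edges hmem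
      have hlen : r.length - 1 = 1 :=
        hr.getVert_injOn (by simp) (by simp only [Set.mem_ofPred_eq]; omega) hw
      cases r with
      | nil => simp at hrn
      | @cons _ w _ h2 r2 =>
        rw [Walk.length_cons] at hlen
        cases r2 with
        | nil => simp at hlen
        | @cons _ z _ h3' r3 =>
          rw [Walk.length_cons] at hlen
          cases r3 with
          | nil => exact ⟨u, w, h1, h2, h3', rfl⟩
          | cons h4 r4 =>
            rw [Walk.length_cons] at hlen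
            omega

lemma wt_arc_three (hℓ : ∀ e ∈ G.edgeSet, 0 < ℓ e) {x y z : V} (hxy : x ≠ y) (hyz : y ≠ z)
    (hzx : z ≠ x) (q : G.Walk x y) (hq : q.IsPath)
    (he : ∀ e ∈ q.edges, e = s(x, y) ∨ e = s(y, z) ∨ e = s(z, x)) :
    ℓ s(x, y) ≤ wt ℓ q ∨ ℓ s(z, x) + ℓ s(y, z) ≤ wt ℓ q := by
  cases q with
  | nil => exact absurd rfl hxy
  | @cons _ u _ h q' =>
    have h0 := he s(x, u) (by simp)
    have hu : u = y ∨ u = z := by
      rcases h0 with h0 | h0 | h0
      · rw [Sym2.eq_iff] at h0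
        rcases h0 with ⟨-, h⟩ | ⟨h, -⟩
        · exact Or.inl h
        · exact absurd h hxy
      · rw [Sym2.eq_iff] at h0
        rcases h0 with ⟨h, -⟩ | ⟨h, -⟩
        · exact absurd h hxy
        · exact absurd h.symm hzx
      · rw [Sym2.eq_iff] at h0
        rcases h0 with ⟨h, -⟩ | ⟨-, h⟩
        · exact absurd h.symm hzx
        · exact Or.inr h
    have hnn := wt_nonneg hℓ q'
    rcases hu with rfl | rfl
    · left
      rw [wt_cons]
      linarith
    · right
      have hq2 := (Walk.cons_isPath_iff h q').mp hq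
      cases q' with
      | nil => exact absurd rfl hyz
      | @cons _ t _ h' q'' =>
        have h1 := he s(u, t) (by simp)
        have ht : t = y := by
          rcases h1 with h1 | h1 | h1
          · rw [Sym2.eq_iff] at h1
            rcases h1 with ⟨h, -⟩ | ⟨h, -⟩
            · exact absurd h hzx
            · exact absurd h.symm hyz
          · rw [Sym2.eq_iff] at h1
            rcases h1 with ⟨h, -⟩ | ⟨-, h⟩
            · exact absurd h.symm hyz
            · exact h
          · rw [Sym2.eq_iff] at h1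
            rcases h1 with ⟨-, h⟩ | ⟨h, -⟩
            · exfalso
              subst h
              exact hq2.2 (by simp)
            · exact absurd h hzx
        subst ht
        have hnn' := wt_nonneg hℓ q''
        rw [wt_cons, wt_cons]
        have e1 : s(x, u) = s(u, x) := Sym2.eq_swap
        have e2 : s(u, t) = s(t, u) := Sym2.eq_swap
        rw [e1, e2]
        linarith

lemma geo_three [Fintype V] (hℓ : ∀ e ∈ G.edgeSet, 0 < ℓ e) (hG : G.Connected) {x y z : V}
    (hxy : G.Adj x y) (hyz : G.Adj y z) (hzx : G.Adj z x)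
    (h : IsGeodesicCycle ℓ (Walk.cons hxy (Walk.cons hyz (Walk.cons hzx Walk.nil)))) :
    (ℓ s(x, y) ≤ dst G ℓ x y ∨ ℓ s(z, x) + ℓ s(y, z) ≤ dst G ℓ x y) ∧
    (ℓ s(y, z) ≤ dst G ℓ y z ∨ ℓ s(x, y) + ℓ s(z, x) ≤ dst G ℓ y z) ∧
    (ℓ s(z, x) ≤ dst G ℓ z x ∨ ℓ s(y, z) + ℓ s(x, y) ≤ dst G ℓ z x) := by
  have key : ∀ a b : V, a ∈ (Walk.cons hxy (Walk.cons hyz (Walk.cons hzx Walk.nil))).support →
      b ∈ (Walk.cons hxy (Walk.cons hyz (Walk.cons hzx Walk.nil))).support →
      ∃ q : G.Walk a b, q.IsPath ∧ (∀ e ∈ q.edges, e = s(x, y) ∨ e = s(y, z) ∨ e = s(z, x)) ∧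
        wt ℓ q ≤ dst G ℓ a b := by
    intro a b ha hb
    obtain ⟨p0, hp0, hp0'⟩ := exists_path_dst hℓ hG a b
    have := h.2 a ha b hb p0 hp0
    push Not at this
    obtain ⟨q, hq, hle⟩ := this
    refine ⟨q, hq.1, ?_, by rw [← hp0']; exact hle⟩
    intro e he
    have := hq.2 e he
    simpa using this
  refine ⟨?_, ?_, ?_⟩
  · obtain ⟨q, hq, he, hle⟩ := key x y (by simp) (by simp)
    rcases wt_arc_three hℓ hxy.ne hyz.ne hzx.ne q hq he with h | h
    · left; linarith
    · right; linarith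
  · obtain ⟨q, hq, he, hle⟩ := key y z (by simp) (by simp)
    rcases wt_arc_three hℓ hyz.ne hzx.ne hxy.ne q hq
      (fun e h => by rcases he e h with h | h | h <;> simp [h]) with h | h
    · left; linarith
    · right; linarith
  · obtain ⟨q, hq, he, hle⟩ := key z x (by simp) (by simp)
    rcases wt_arc_three hℓ hzx.ne hxy.ne hyz.ne q hq
      (fun e h => by rcases he e h with h | h | h <;> simp [h]) with h | h
    · left; linarith
    · right; linarith

lemma geodesic_rotate [DecidableEq V] {v u : V} {C : G.Walk v v} (h : IsGeodesicCycle ℓ C)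
    (hu : u ∈ C.support) : IsGeodesicCycle ℓ (C.rotate u hu) := by
  refine ⟨(Walk.isCycle_rotate hu).mpr h.1, ?_⟩
  intro x hx y hy q hq hcon
  refine h.2 x ((Walk.mem_support_rotate_iff C u hu).mp hx) y
    ((Walk.mem_support_rotate_iff C u hu).mp hy) q hq ?_
  intro q' hq'
  exact hcon q' ⟨hq'.1, fun e he => (C.rotate_edges u hu).mem_iff.mpr (hq'.2 e he)⟩

lemma induced_rotate [DecidableEq V] {v u : V} {C : G.Walk v v}
    (h : ∀ x ∈ C.support, ∀ y ∈ C.support, G.Adj x y → s(x, y) ∈ C.edges)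
    (hu : u ∈ C.support) : ∀ x ∈ (C.rotate u hu).support, ∀ y ∈ (C.rotate u hu).support,
      G.Adj x y → s(x, y) ∈ (C.rotate u hu).edges := by
  intro x hx y hy hxy
  exact (C.rotate_edges u hu).mem_iff.mpr (h x ((Walk.mem_support_rotate_iff C u hu).mp hx) y
    ((Walk.mem_support_rotate_iff C u hu).mp hy) hxy)

end triangles

/-! ## Peripheral cycles of the graph -/

lemma adj_p {i : Fin 4} {x : W} (h : K.Adj (p i) x) : ∃ j, i ≠ j ∧ x = k j := by
  obtain ⟨j, b⟩ := x
  have h1 : i ≠ j := h.1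
  have h2 : (true = false) ∨ b = false := h.2
  refine ⟨j, h1, ?_⟩
  rcases h2 with h2 | h2
  · exact absurd h2 (by decide)
  · rw [h2]

lemma adj_k {i j : Fin 4} (h : K.Adj (k i) (k j)) : i ≠ j := h.1

/-- A triangle of the tetrahedron separates the graph. -/
lemma not_peripheral_tetra {a b c : Fin 4} (hab : K.Adj (k a) (k b)) (hbc : K.Adj (k b) (k c))
    (hca : K.Adj (k c) (k a)) :
    ¬ IsPeripheralCycle (Walk.cons hab (Walk.cons hbc (Walk.cons hca Walk.nil))) := by
  rintro ⟨-, -, hpre⟩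
  obtain ⟨e, hea, heb, hec, hcov⟩ : ∃ e : Fin 4, e ≠ a ∧ e ≠ b ∧ e ≠ c ∧
      ∀ j, j ≠ e → j = a ∨ j = b ∨ j = c := by
    have h1 := adj_k hab
    have h2 := adj_k hbc
    have h3 := adj_k hca
    revert h1 h2 h3
    clear hab hbc hca hpre
    revert a b c
    decide
  have hpe : p e ∉ (Walk.cons hab (Walk.cons hbc (Walk.cons hca Walk.nil))).support := by
    simp
  have hke : k e ∉ (Walk.cons hab (Walk.cons hbc (Walk.cons hca Walk.nil))).support := by
    simp [hea, heb, hec]
  obtain ⟨w⟩ := hpre ⟨p e, hpe⟩ ⟨k e, hke⟩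
  cases w with
  | @cons _ x _ h w' =>
    obtain ⟨x, hx⟩ := x
    have hadj : K.Adj (p e) x := h
    obtain ⟨j, hj, rfl⟩ := adj_p hadj
    apply hx
    rcases hcov j hj.symm with rfl | rfl | rfl <;> simp

section final

variable {ℓ : Sym2 W → ℝ}

/-- Abbreviations for the distance data of the graph. -/
noncomputable def dD (ℓ : Sym2 W → ℝ) (i j : Fin 4) : ℝ := dst K ℓ (k i) (k j)

noncomputable def dS (ℓ : Sym2 W → ℝ) (i j : Fin 4) : ℝ := dst K ℓ (p i) (k j)

noncomputable def dT (ℓ : Sym2 W → ℝ) (i j : Fin 4) : ℝ := dst K ℓ (p i) (p j)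

def dL (ℓ : Sym2 W → ℝ) (i j : Fin 4) : ℝ := ℓ s(k i, k j)

def dM (ℓ : Sym2 W → ℝ) (i j : Fin 4) : ℝ := ℓ s(p i, k j)

/-- If all geodesic cycles are peripheral, every `ZMod 2`-functional that is nonzero on some closed
walk is nonzero on a geodesic facial triangle. -/
lemma facial (hℓ : ∀ e ∈ K.edgeSet, 0 < ℓ e)
    (hper : ∀ (v : W) (C : K.Walk v v), IsGeodesicCycle ℓ C → IsPeripheralCycle C)
    (φ : Sym2 W → ZMod 2) {u : W} (q : K.Walk u u) (hq : wt φ q ≠ 0) :
    ∃ i j m : Fin 4, i ≠ j ∧ i ≠ m ∧ j ≠ m ∧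
      φ s(p i, k j) + (φ s(k j, k m) + φ s(k m, p i)) ≠ 0 ∧
      GeoT (dD ℓ) (dS ℓ) (dL ℓ) (dM ℓ) i j m := by
  obtain ⟨v, C, hgeo, hφ⟩ := exists_geodesic hℓ φ q hq
  have hP := hper v C hgeo
  by_cases hp : ∃ i, p i ∈ C.support
  · obtain ⟨i, hi⟩ := hp
    have hgeo' := geodesic_rotate hgeo hi
    have hind' := induced_rotate hP.2.1 hi
    have hφ' : wt φ (C.rotate (p i) hi) ≠ 0 := by rwa [wt_rotate]
    generalize C.rotate (p i) hi = C' at hgeo' hind' hφ'
    have hn : ¬ C'.Nil := hgeo'.1.not_nil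
    obtain ⟨j, hj, ej⟩ := adj_p (C'.adj_snd hn)
    obtain ⟨m, hm, em⟩ := adj_p (C'.adj_penultimate hn).symm
    have hjm : j ≠ m := by
      intro h
      apply hgeo'.1.snd_ne_penultimate
      rw [ej, em, h]
    have hadj : K.Adj C'.snd C'.penultimate := by
      rw [ej, em]; exact adj_kk hjm
    obtain ⟨x, y, h1, h2, h3, rfl⟩ := triangle_of_adj hgeo'.1 hind' hadj
    obtain ⟨j', hj', rfl⟩ := adj_p h1
    obtain ⟨m', hm', rfl⟩ := adj_p h3.symm
    have hjm' := adj_k h2
    have hgeo3 := geo_three hℓ K_connected h1 h2 h3 hgeo'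
    have s1 : s(k m', p i) = s(p i, k m') := Sym2.eq_swap
    have d1 : dst K ℓ (k m') (p i) = dst K ℓ (p i) (k m') := dst_comm hℓ K_connected _ _
    refine ⟨i, j', m', hj', hm', hjm', by simpa using hφ', ?_, ?_, ?_⟩
    · rcases hgeo3.1 with h | h
      · left; exact h
      · right; rw [s1] at h; exact h
    · rcases hgeo3.2.2 with h | h
      · left; rw [s1, d1] at h; exact h
      · right
        rw [d1] at h
        unfold dM dL dS
        linarith
    · rcases hgeo3.2.1 with h | h
      · left; exact h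
      · right; rw [s1] at h; exact h
  · exfalso
    push Not at hp
    have hk : ∀ x ∈ C.support, ∃ i, x = k i := by
      rintro ⟨i, b⟩ hx
      cases b with
      | false => exact ⟨i, rfl⟩
      | true => exact absurd hx (hp i)
    have hn : ¬ C.Nil := hgeo.1.not_nil
    obtain ⟨b, hb⟩ := hk _ (C.getVert_mem_support 1)
    obtain ⟨c, hc⟩ := hk _ (C.getVert_mem_support (C.length - 1))
    have hbc : b ≠ c := by
      intro h
      apply hgeo.1.snd_ne_penultimate
      change C.getVert 1 = C.getVert (C.length - 1)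
      rw [hb, hc, h]
    have hadj : K.Adj C.snd C.penultimate := by
      change K.Adj (C.getVert 1) (C.getVert (C.length - 1))
      rw [hb, hc]; exact adj_kk hbc
    obtain ⟨x, y, h1, h2, h3, rfl⟩ := triangle_of_adj hgeo.1 hP.2.1 hadj
    obtain ⟨a, rfl⟩ := hk v (by simp)
    obtain ⟨b', rfl⟩ := hk x (by simp)
    obtain ⟨c', rfl⟩ := hk y (by simp)
    exact not_peripheral_tetra h1 h2 h3 hP

/-- A dual path from the facial triangle at `p_i` opposite to `k_l` to the one at `p_0` opposite to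
`k_1`: the set of edges it crosses. -/
def cut : Fin 4 → Fin 4 → List (Sym2 W)
  | 0, 2 => [s(p 0, k 3)]
  | 0, 3 => [s(p 0, k 2)]
  | 1, 0 => [s(k 2, k 3)]
  | 1, 2 => [s(p 1, k 3), s(k 2, k 3)]
  | 1, 3 => [s(p 1, k 2), s(k 2, k 3)]
  | 2, 0 => [s(k 1, k 3), s(p 0, k 3)]
  | 2, 1 => [s(p 2, k 3), s(k 1, k 3), s(p 0, k 3)]
  | 2, 3 => [s(p 2, k 1), s(k 1, k 3), s(p 0, k 3)]
  | 3, 0 => [s(k 1, k 2), s(p 0, k 2)]
  | 3, 1 => [s(p 3, k 2), s(k 1, k 2), s(p 0, k 2)]
  | 3, 2 => [s(p 3, k 1), s(k 1, k 2), s(p 0, k 2)]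
  | _, _ => []

/-- The parity functional that is 1 on the facial triangles `(i, l)` and `(0, 1)` only. -/
def par (i l : Fin 4) (e : Sym2 W) : ZMod 2 := if e ∈ cut i l then 1 else 0

lemma par_face : ∀ i l : Fin 4, i ≠ l → ∀ a b c : Fin 4, a ≠ b → a ≠ c → b ≠ c →
    par i l s(p a, k b) + (par i l s(k b, k c) + par i l s(k c, p a)) =
      (if a = i ∧ b ≠ l ∧ c ≠ l then 1 else 0) + (if a = 0 ∧ b ≠ 1 ∧ c ≠ 1 then 1 else 0) := by
  decide

/-- All facial triangles but at most one are geodesic. -/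
lemma two_faces (hℓ : ∀ e ∈ K.edgeSet, 0 < ℓ e)
    (hper : ∀ (v : W) (C : K.Walk v v), IsGeodesicCycle ℓ C → IsPeripheralCycle C)
    {i l i' l' : Fin 4} (hil : i ≠ l) (hil' : i' ≠ l') (hne : ¬ (i = i' ∧ l = l')) :
    (∀ j m, i ≠ j → i ≠ m → j ≠ m → j ≠ l → m ≠ l →
      GeoT (dD ℓ) (dS ℓ) (dL ℓ) (dM ℓ) i j m) ∨
    (∀ j m, i' ≠ j → i' ≠ m → j ≠ m → j ≠ l' → m ≠ l' →
      GeoT (dD ℓ) (dS ℓ) (dL ℓ) (dM ℓ) i' j m) := by
  have hswap : ∀ i j m, GeoT (dD ℓ) (dS ℓ) (dL ℓ) (dM ℓ) i j m →
      GeoT (dD ℓ) (dS ℓ) (dL ℓ) (dM ℓ) i m j := by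
    intro i j m h
    have s1 : dL ℓ m j = dL ℓ j m := by unfold dL; rw [Sym2.eq_swap]
    have s2 : dD ℓ m j = dD ℓ j m := dst_comm hℓ K_connected _ _
    refine ⟨?_, ?_, ?_⟩
    · rw [s1]; exact h.2.1
    · rw [s1]; exact h.1
    · rw [s1, s2]
      rcases h.2.2 with h | h
      · left; exact h
      · right; linarith
  have huniq : ∀ i l j m b c : Fin 4, i ≠ l → i ≠ j → i ≠ m → j ≠ m → j ≠ l → m ≠ l →
      i ≠ b → i ≠ c → b ≠ c → b ≠ l → c ≠ l → (b = j ∧ c = m) ∨ (b = m ∧ c = j) := by
    decide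
  obtain ⟨j₀, m₀, h1, h2, h3, h4, h5⟩ : ∃ j m : Fin 4, i ≠ j ∧ i ≠ m ∧ j ≠ m ∧ j ≠ l ∧ m ≠ l := by
    clear hne
    revert hil
    revert i l
    decide
  let φ : Sym2 W → ZMod 2 := fun e => par i l e + par i' l' e
  have hval : ∀ a b c : Fin 4, a ≠ b → a ≠ c → b ≠ c →
      φ s(p a, k b) + (φ s(k b, k c) + φ s(k c, p a)) =
      (if a = i ∧ b ≠ l ∧ c ≠ l then 1 else 0) + (if a = i' ∧ b ≠ l' ∧ c ≠ l' then 1 else 0) := by
    intro a b c hab hac hbc
    have e1 := par_face i l hil a b c hab hac hbc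
    have e2 := par_face i' l' hil' a b c hab hac hbc
    have e3 : ∀ x : ZMod 2, x + x = 0 := by decide
    calc φ s(p a, k b) + (φ s(k b, k c) + φ s(k c, p a))
        = (par i l s(p a, k b) + (par i l s(k b, k c) + par i l s(k c, p a))) +
          (par i' l' s(p a, k b) + (par i' l' s(k b, k c) + par i' l' s(k c, p a))) := by
          simp only [φ]; ring
      _ = _ := by
          rw [e1, e2]
          have := e3 (if a = 0 ∧ b ≠ 1 ∧ c ≠ 1 then 1 else 0)
          linear_combination this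
  let q : K.Walk (p i) (p i) :=
    Walk.cons (adj_pk h1) (Walk.cons (adj_kk h3) (Walk.cons (adj_kp h2.symm) Walk.nil))
  have hq : wt φ q ≠ 0 := by
    have : wt φ q = φ s(p i, k j₀) + (φ s(k j₀, k m₀) + φ s(k m₀, p i)) := by
      simp [q]
    rw [this, hval i j₀ m₀ h1 h2 h3, if_pos ⟨rfl, h4, h5⟩]
    rw [if_neg]
    · decide
    · rintro ⟨rfl, h6, h7⟩
      apply hne
      refine ⟨rfl, ?_⟩
      have : ∀ i l j m l' : Fin 4, i ≠ l → i ≠ j → i ≠ m → j ≠ m → j ≠ l → m ≠ l → i ≠ l' →
        j ≠ l' → m ≠ l' → l = l' := by decide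
      exact this i l j₀ m₀ l' hil h1 h2 h3 h4 h5 hil' h6 h7
  obtain ⟨a, b, c, hab, hac, hbc, hφ, hgeo⟩ := facial hℓ hper φ q hq
  rw [hval a b c hab hac hbc] at hφ
  by_cases hA : a = i ∧ b ≠ l ∧ c ≠ l
  · left
    obtain ⟨rfl, hb, hc⟩ := hA
    intro j m g1 g2 g3 g4 g5
    rcases huniq a l j m b c hil g1 g2 g3 g4 g5 hab hac hbc hb hc with ⟨rfl, rfl⟩ | ⟨rfl, rfl⟩
    · exact hgeo
    · exact hswap _ _ _ hgeo
  · by_cases hB : a = i' ∧ b ≠ l' ∧ c ≠ l'
    · right
      obtain ⟨rfl, hb, hc⟩ := hB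
      intro j m g1 g2 g3 g4 g5
      rcases huniq a l' j m b c hil' g1 g2 g3 g4 g5 hab hac hbc hb hc with ⟨rfl, rfl⟩ | ⟨rfl, rfl⟩
      · exact hgeo
      · exact hswap _ _ _ hgeo
    · rw [if_neg hA, if_neg hB] at hφ
      exact absurd rfl hφ

/-- The distance data of the graph satisfies all hypotheses of the real-number core. -/
lemma data (hℓ : ∀ e ∈ K.edgeSet, 0 < ℓ e)
    (hper : ∀ (v : W) (C : K.Walk v v), IsGeodesicCycle ℓ C → IsPeripheralCycle C) :
    Data (dD ℓ) (dS ℓ) (dT ℓ) (dL ℓ) (dM ℓ) where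
  Dsymm i j := dst_comm hℓ K_connected _ _
  Lsymm i j := by unfold dL; rw [Sym2.eq_swap]
  Dnn i j := dst_nonneg hℓ K_connected _ _
  Snn i j := dst_nonneg hℓ K_connected _ _
  DL i j hij := dst_adj_le hℓ (adj_kk hij)
  SM i j hij := dst_adj_le hℓ (adj_pk hij)
  tri1 i j m := dst_triangle hℓ K_connected _ _ _
  tri2 i j m := by
    have := dst_triangle hℓ K_connected (k i) (p m) (k j)
    rw [dst_comm hℓ K_connected (k i) (p m)] at this
    exact this
  tri3 i j m := dst_triangle hℓ K_connected _ _ _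
  firstT i j hij := by
    obtain ⟨z, hz, hd⟩ := exists_first_step hℓ K_connected
      (x := p i) (y := p j) (by simpa using hij)
    obtain ⟨m, hm, rfl⟩ := adj_p hz
    refine ⟨m, hm.symm, ?_⟩
    rw [dst_comm hℓ K_connected (k m) (p j)] at hd
    exact hd
  firstS i := by
    obtain ⟨z, hz, hd⟩ := exists_first_step hℓ K_connected (x := p i) (y := k i) (by simp)
    obtain ⟨m, hm, rfl⟩ := adj_p hz
    exact ⟨m, hm.symm, hd⟩
  N3 i j m hij hjm him := by
    have hng : ¬ IsGeodesicCycle ℓ (Walk.cons (adj_kk hij) (Walk.cons (adj_kk hjm)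
        (Walk.cons (adj_kk him.symm) Walk.nil))) := by
      intro hg
      exact not_peripheral_tetra _ _ _ (hper _ _ hg)
    exact three_not_geodesic hℓ K_connected _ _ _ hng
  N4 i j a b hij hia hib hja hjb hab := by
    have hng : ¬ IsGeodesicCycle ℓ (Walk.cons (adj_kp hib) (Walk.cons (adj_pk hjb.symm)
        (Walk.cons (adj_kp hja) (Walk.cons (adj_pk hia.symm) Walk.nil)))) := by
      intro hg
      have := (hper _ _ hg).2.1 (k i) (by simp) (k j) (by simp) (adj_kk hij)
      simp at this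
    have := four_not_geodesic hℓ K_connected _ _ _ _ (by simpa using hij)
      (by simpa using hab.symm) hng
    have d1 : dst K ℓ (k i) (p b) = dst K ℓ (p b) (k i) := dst_comm hℓ K_connected _ _
    have d2 : dst K ℓ (k j) (p a) = dst K ℓ (p a) (k j) := dst_comm hℓ K_connected _ _
    have s1 : s(k i, p b) = s(p b, k i) := Sym2.eq_swap
    have s2 : s(k j, p a) = s(p a, k j) := Sym2.eq_swap
    rw [d1, d2, s1, s2] at this
    unfold dS dM dD dT
    rcases this with h | h | h | h | h | h
    · exact Or.inl h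
    · exact Or.inr (Or.inl h)
    · exact Or.inr (Or.inr (Or.inr (Or.inl h)))
    · exact Or.inr (Or.inr (Or.inl h))
    · exact Or.inr (Or.inr (Or.inr (Or.inr (Or.inl ⟨h.1, h.2⟩))))
    · exact Or.inr (Or.inr (Or.inr (Or.inr (Or.inr ⟨h.1, h.2⟩))))
  N4' i j c hij hic hjc := by
    have hng : ¬ IsGeodesicCycle ℓ (Walk.cons (adj_kp hic) (Walk.cons (adj_pk hjc.symm)
        (Walk.cons (adj_kk hjc) (Walk.cons (adj_kk hic.symm) Walk.nil)))) := by
      intro hg
      have := (hper _ _ hg).2.1 (k i) (by simp) (k j) (by simp) (adj_kk hij)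
      simp [hij, hij.symm, hic, hjc] at this
    have := four_not_geodesic hℓ K_connected _ _ _ _ (by simpa using hij)
      (by simp) hng
    have d1 : dst K ℓ (k i) (p c) = dst K ℓ (p c) (k i) := dst_comm hℓ K_connected _ _
    have d2 : dst K ℓ (k c) (k i) = dst K ℓ (k i) (k c) := dst_comm hℓ K_connected _ _
    have s1 : s(k i, p c) = s(p c, k i) := Sym2.eq_swap
    have s2 : s(k c, k i) = s(k i, k c) := Sym2.eq_swap
    rw [d1, d2, s1, s2] at this
    unfold dS dM dD dL
    rcases this with h | h | h | h | h | h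
    · exact Or.inl h
    · exact Or.inr (Or.inl h)
    · exact Or.inr (Or.inr (Or.inr (Or.inl h)))
    · exact Or.inr (Or.inr (Or.inl h))
    · exact Or.inr (Or.inr (Or.inr (Or.inr (Or.inl ⟨h.1, h.2⟩))))
    · exact Or.inr (Or.inr (Or.inr (Or.inr (Or.inr ⟨h.1, h.2⟩))))

end final

/-- **There is a finite 3-connected graph such that for every length assignment some geodesic
cycle is not peripheral.** -/
theorem main : ∃ (V : Type) (_ : Fintype V) (G : SimpleGraph V), ThreeConnected G ∧
    ∀ ℓ : Sym2 V → ℝ, (∀ e ∈ G.edgeSet, 0 < ℓ e) →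
      ∃ (v : V) (C : G.Walk v v), IsGeodesicCycle ℓ C ∧ ¬ IsPeripheralCycle C := by
  refine ⟨W, inferInstance, K, K_three, ?_⟩
  intro ℓ hℓ
  by_contra hcon
  push Not at hcon
  have hdata := data hℓ hcon
  by_cases H : ∃ e c : Fin 4, e ≠ c ∧ ¬ (∀ j m, e ≠ j → e ≠ m → j ≠ m → j ≠ c → m ≠ c →
      GeoT (dD ℓ) (dS ℓ) (dL ℓ) (dM ℓ) e j m)
  · obtain ⟨e, c, hec, hbad⟩ := H
    obtain ⟨a, b, hab, hac, hae, hbc, hbe, hcov⟩ : ∃ a b : Fin 4, a ≠ b ∧ a ≠ c ∧ a ≠ e ∧
        b ≠ c ∧ b ≠ e ∧ ∀ x, x = a ∨ x = b ∨ x = c ∨ x = e := by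
      clear hbad
      revert e c
      decide
    refine core hdata hab hac hae hbc hbe hec.symm hcov ?_
    intro i j m hij him hjm hnot
    obtain ⟨l, hl1, hl2, hl3⟩ : ∃ l : Fin 4, i ≠ l ∧ j ≠ l ∧ m ≠ l := by
      clear hnot
      revert hij him hjm
      revert i j m
      decide
    rcases two_faces hℓ hcon (i := i) (l := l) (i' := e) (l' := c) hl1 hec (by
      rintro ⟨rfl, rfl⟩
      exact hnot ⟨rfl, hl2, hl3⟩) with h | h
    · exact h j m hij him hjm hl2 hl3
    · exact absurd h hbad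
  · push Not at H
    refine core (a := 0) (b := 1) (c := 2) (e := 3) hdata (by decide) (by decide) (by decide)
      (by decide) (by decide) (by decide) (by decide) ?_
    intro i j m hij him hjm _
    obtain ⟨l, hl1, hl2, hl3⟩ : ∃ l : Fin 4, i ≠ l ∧ j ≠ l ∧ m ≠ l := by
      revert hij him hjm
      revert i j m
      decide
    exact H i l hl1 j m hij him hjm hl2 hl3

end Pool.Agent.Helper58.GeoCycle
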